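import Mathlib

/-!
# The circumradius of Minkowski sums with respect to `ℓ_p` balls, `2 < p < ∞`

For every `p ∈ (2, ∞)` there are two convex bodies `K`, `L` (polytopes) in some `ℝ^n` with
`R(K + L, B_p) < (R(K, B_p)^p + R(L, B_p)^p)^(1/p)`.

Idea. In `ℝ^{N × N}` let `K` be spanned by the indicators of the rows and `L` by the indicators of
the columns. By symmetry the radii are the `L^p` distances of `X`, `Y`, `X + Y` to the constants,
where `X`, `Y` are independent with `P(X = 1) = 1 / N`, `P(X = 0) = 1 - 1 / N`. For `p > 2` these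
distances are not superadditive.
-/

set_option autoImplicit false
open Filter Topology
open scoped Pointwise

namespace Pool.Agent.Results.MP_a85856_gt.MinkowskiSumFails

/-- the unit ball of `ℓ_p` in `ℝ^n` -/
def lpBall (n : ℕ) (p : ℝ) : Set (Fin n → ℝ) := {x | (∑ i, |x i| ^ p) ^ (1 / p) ≤ 1}

/-- nonempty compact convex sets -/
def IsBody {n : ℕ} (K : Set (Fin n → ℝ)) : Prop := K.Nonempty ∧ IsCompact K ∧ Convex ℝ K

/-- `r` is the circumradius of `K` with respect to `C`: the least `l ≥ 0` such that `K` is contained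
in a translate of `l C` -/
def IsCircumradius {n : ℕ} (K C : Set (Fin n → ℝ)) (r : ℝ) : Prop :=
  IsLeast {l : ℝ | 0 ≤ l ∧ ∃ t : Fin n → ℝ, K ⊆ {t} + l • C} r

section basic

variable {n : ℕ} {p : ℝ}

lemma mem_ball_iff (hp : 0 < p) (x : Fin n → ℝ) : x ∈ lpBall n p ↔ ∑ i, |x i| ^ p ≤ 1 := by
  have h0 : 0 ≤ ∑ i, |x i| ^ p := Finset.sum_nonneg fun i _ => by positivity
  constructor
  · intro h
    have h1 : ((∑ i, |x i| ^ p) ^ (1 / p)) ^ p ≤ 1 :=
      Real.rpow_le_one (by positivity) h hp.le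
    rwa [← Real.rpow_mul h0, one_div, inv_mul_cancel₀ hp.ne', Real.rpow_one] at h1
  · intro h
    exact Real.rpow_le_one h0 h (by positivity)

lemma mem_trans_iff (hp : 0 < p) (x t : Fin n → ℝ) (l : ℝ) (hl : 0 ≤ l) :
    x ∈ ({t} + l • lpBall n p : Set (Fin n → ℝ)) ↔ ∑ i, |x i - t i| ^ p ≤ l ^ p := by
  rw [Set.singleton_add, Set.mem_image]
  constructor
  · rintro ⟨y, hy, rfl⟩
    obtain ⟨b, hb, rfl⟩ := hy
    rw [mem_ball_iff hp] at hb
    have : ∀ i, |(t + l • b) i - t i| ^ p = l ^ p * |b i| ^ p := by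
      intro i
      simp only [Pi.add_apply, Pi.smul_apply, smul_eq_mul, add_sub_cancel_left]
      rw [abs_mul, abs_of_nonneg hl, Real.mul_rpow hl (abs_nonneg _)]
    simp only [this]
    rw [← Finset.mul_sum]
    have hlp : 0 ≤ l ^ p := by positivity
    nlinarith
  · intro h
    rcases hl.eq_or_lt with h0 | hpos
    · have hz : ∑ i, |x i - t i| ^ p = 0 := by
        refine le_antisymm ?_ (Finset.sum_nonneg fun i _ => by positivity)
        rw [← h0, Real.zero_rpow hp.ne'] at h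
        exact h
      rw [Finset.sum_eq_zero_iff_of_nonneg fun i _ => by positivity] at hz
      have hxt : x = t := by
        funext i
        have := hz i (Finset.mem_univ i)
        rw [Real.rpow_eq_zero (abs_nonneg _) hp.ne', abs_eq_zero] at this
        linarith
      refine ⟨0, ⟨0, ?_, by simp⟩, by simp [hxt]⟩
      rw [mem_ball_iff hp]
      simp [Real.zero_rpow hp.ne']
    · refine ⟨x - t, ⟨l⁻¹ • (x - t), ?_, ?_⟩, by simp⟩
      · rw [mem_ball_iff hp]
        have : ∀ i, |(l⁻¹ • (x - t)) i| ^ p = |x i - t i| ^ p / l ^ p := by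
          intro i
          simp only [Pi.smul_apply, Pi.sub_apply, smul_eq_mul]
          rw [abs_mul, abs_inv, abs_of_pos hpos, Real.mul_rpow (by positivity) (abs_nonneg _),
            Real.inv_rpow hpos.le]
          ring
        simp only [this]
        rw [← Finset.sum_div, div_le_one (by positivity)]
        exact h
      · simp only
        rw [smul_smul, mul_inv_cancel₀ hpos.ne', one_smul]

lemma rad_iff (hp : 0 < p) (K : Set (Fin n → ℝ)) (r : ℝ) :
    IsCircumradius K (lpBall n p) r ↔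
      IsLeast {l : ℝ | 0 ≤ l ∧ ∃ t : Fin n → ℝ, ∀ x ∈ K, ∑ i, |x i - t i| ^ p ≤ l ^ p} r := by
  have : {l : ℝ | 0 ≤ l ∧ ∃ t : Fin n → ℝ, K ⊆ {t} + l • lpBall n p} =
      {l : ℝ | 0 ≤ l ∧ ∃ t : Fin n → ℝ, ∀ x ∈ K, ∑ i, |x i - t i| ^ p ≤ l ^ p} := by
    ext l
    constructor
    · rintro ⟨hl, t, ht⟩
      exact ⟨hl, t, fun x hx => (mem_trans_iff hp x t l hl).1 (ht hx)⟩
    · rintro ⟨hl, t, ht⟩
      exact ⟨hl, t, fun x hx => (mem_trans_iff hp x t l hl).2 (ht x hx)⟩
  rw [IsCircumradius, this]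

/-- the circumradius exists -/
lemma exists_rad (hp : 0 < p) (K : Set (Fin n → ℝ)) (hK : IsBody K) :
    ∃ r, IsCircumradius K (lpBall n p) r := by
  obtain ⟨hne, hcomp, hconv⟩ := hK
  obtain ⟨x0, hx0⟩ := hne
  have hcont : ∀ x : Fin n → ℝ, Continuous fun t : Fin n → ℝ => ∑ i, |x i - t i| ^ p := by
    intro x
    refine continuous_finsetSum _ fun i _ => ?_
    exact Continuous.rpow_const (by fun_prop) fun _ => Or.inr hp.le
  have hcont2 : ∀ t : Fin n → ℝ, Continuous fun x : Fin n → ℝ => ∑ i, |x i - t i| ^ p := by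
    intro x
    refine continuous_finsetSum _ fun i _ => ?_
    exact Continuous.rpow_const (by fun_prop) fun _ => Or.inr hp.le
  -- a first radius
  obtain ⟨M, hM⟩ := (hcomp.image (hcont2 0)).bddAbove
  have hM' : ∀ x ∈ K, ∑ i, |x i - (0 : Fin n → ℝ) i| ^ p ≤ M := fun x hx =>
    hM (Set.mem_image_of_mem _ hx)
  set l0 : ℝ := (max M 0) ^ (1 / p) with hl0
  have hl00 : 0 ≤ l0 := by positivity
  have hl0p : l0 ^ p = max M 0 := by
    rw [hl0, ← Real.rpow_mul (le_max_right _ _), one_div, inv_mul_cancel₀ hp.ne', Real.rpow_one]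
  set T : Set (ℝ × (Fin n → ℝ)) := {q | q.1 ∈ Set.Icc 0 l0 ∧
    ∀ x ∈ K, ∑ i, |x i - q.2 i| ^ p ≤ q.1 ^ p} with hT
  have hTclosed : IsClosed T := by
    have h1 : T = (Prod.fst ⁻¹' Set.Icc 0 l0) ∩ ⋂ x ∈ K, {q : ℝ × (Fin n → ℝ) |
        ∑ i, |x i - q.2 i| ^ p ≤ q.1 ^ p} := by
      ext q; simp [hT]
    rw [h1]
    refine (isClosed_Icc.preimage continuous_fst).inter (isClosed_biInter fun x _ => ?_)
    refine isClosed_le ((hcont x).comp continuous_snd) ?_
    exact Continuous.rpow_const continuous_fst fun _ => Or.inr hp.le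
  have hTbdd : T ⊆ Set.Icc 0 l0 ×ˢ Set.pi Set.univ (fun i => Set.Icc (x0 i - l0) (x0 i + l0)) := by
    rintro ⟨l, t⟩ ⟨hl, ht⟩
    refine ⟨hl, fun i _ => ?_⟩
    have h1 := ht x0 hx0
    have h2 : |x0 i - t i| ^ p ≤ l ^ p := (Finset.single_le_sum
      (f := fun i => |x0 i - t i| ^ p) (fun i _ => by positivity) (Finset.mem_univ i)).trans h1
    have h3 : |x0 i - t i| ≤ l := by
      by_contra hcon
      push Not at hcon
      exact absurd h2 (not_le.2 (Real.rpow_lt_rpow hl.1 hcon hp))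
    have h4 := abs_le.1 (h3.trans hl.2)
    constructor <;> [linarith [h4.2]; linarith [h4.1]]
  have hTcomp : IsCompact T :=
    IsCompact.of_isClosed_subset (isCompact_Icc.prod (isCompact_univ_pi fun _ => isCompact_Icc))
      hTclosed hTbdd
  have hTne : T.Nonempty := by
    refine ⟨(l0, 0), ⟨hl00, le_rfl⟩, fun x hx => ?_⟩
    show _ ≤ l0 ^ p
    rw [hl0p]
    exact (hM' x hx).trans (le_max_left _ _)
  obtain ⟨r, hr⟩ := (hTcomp.image continuous_fst).exists_isLeast (hTne.image _)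
  refine ⟨r, (rad_iff hp K r).2 ⟨?_, ?_⟩⟩
  · obtain ⟨⟨l, t⟩, ⟨hl, ht⟩, rfl⟩ := hr.1
    exact ⟨hl.1, t, ht⟩
  · rintro l ⟨hl, t, ht⟩
    rcases le_or_gt l l0 with h | h
    · exact hr.2 ⟨(l, t), ⟨⟨hl, h⟩, ht⟩, rfl⟩
    · obtain ⟨⟨l', t'⟩, ⟨hl', -⟩, hrr⟩ := hr.1
      have : r = l' := hrr.symm
      rw [this]
      exact hl'.2.trans h.le

end basic

section core

lemma abs_pow_convex (p : ℝ) (hp : 1 ≤ p) (s x y a b : ℝ) (ha : 0 ≤ a) (hb : 0 ≤ b)
    (hab : a + b = 1) : |a * x + b * y - s| ^ p ≤ a * |x - s| ^ p + b * |y - s| ^ p := by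
  have h1 : |a * x + b * y - s| ≤ a * |x - s| + b * |y - s| := by
    have e : a * x + b * y - s = a * (x - s) + b * (y - s) := by
      have : s = (a + b) * s := by rw [hab, one_mul]
      linear_combination -this
    rw [e]
    refine (abs_add_le _ _).trans ?_
    rw [abs_mul, abs_mul, abs_of_nonneg ha, abs_of_nonneg hb]
  have h2 := (convexOn_rpow hp).2 (x := |x - s|) (show (0:ℝ) ≤ |x - s| by positivity)
    (y := |y - s|) (show (0:ℝ) ≤ |y - s| by positivity) ha hb hab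
  simp only [smul_eq_mul] at h2
  exact (Real.rpow_le_rpow (abs_nonneg _) h1 (by linarith)).trans h2

/-- the one-dimensional lower bound -/
lemma one_dim (p : ℝ) (hp : 2 < p) (M : ℝ) (hM : 0 < M) (s : ℝ) :
    (1 + M ^ (-(1 / (p - 1)))) ^ (-(p - 1)) ≤ |1 - s| ^ p + M * |s| ^ p := by
  set r : ℝ := M ^ (-(1 / (p - 1))) with hr
  have hr0 : 0 < r := by positivity
  have hrp : r ^ (1 - p) = M := by
    rw [hr, ← Real.rpow_mul hM.le]
    have : -(1 / (p - 1)) * (1 - p) = 1 := by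
      have : p - 1 ≠ 0 := by linarith
      field_simp
      ring
    rw [this, Real.rpow_one]
  have h1 : (1:ℝ) ≤ |1 - s| + |s| := by
    have := abs_add_le (1 - s) s
    rw [sub_add_cancel, abs_one] at this
    exact this
  have hc := convexOn_rpow (p := p) (by linarith : (1:ℝ) ≤ p)
  have hx1 : (0:ℝ) ≤ |1 - s| * (1 + r) := by positivity
  have hy1 : (0:ℝ) ≤ |s| * ((1 + r) / r) := by positivity
  have ha1 : (0:ℝ) ≤ 1 / (1 + r) := by positivity
  have hb1 : (0:ℝ) ≤ r / (1 + r) := by positivity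
  have hab1 : 1 / (1 + r) + r / (1 + r) = 1 := by field_simp
  have hc2 := hc.2
  have hJ := @hc2 (|1 - s| * (1 + r)) (Set.mem_Ici.2 hx1)
    (|s| * ((1 + r) / r)) (Set.mem_Ici.2 hy1) (1 / (1 + r)) (r / (1 + r))
    ha1 hb1 hab1
  simp only [smul_eq_mul] at hJ
  have h2 : 1 / (1 + r) * (|1 - s| * (1 + r)) + r / (1 + r) * (|s| * ((1 + r) / r)) =
      |1 - s| + |s| := by
    field_simp
  rw [h2, Real.mul_rpow (abs_nonneg _) (by positivity), Real.mul_rpow (abs_nonneg _) (by positivity)]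
    at hJ
  have h3 : (1:ℝ) ≤ (|1 - s| + |s|) ^ p := Real.one_le_rpow h1 (by linarith)
  have h4 := h3.trans hJ
  have h5 : (1 + r) ^ p = (1 + r) ^ (p - 1) * (1 + r) := by
    rw [← Real.rpow_add_one (by positivity)]
    congr 1; ring
  have h6 : ((1 + r) / r) ^ p = (1 + r) ^ (p - 1) * (1 + r) * (M / r) := by
    rw [Real.div_rpow (by positivity) hr0.le, h5]
    have : r ^ p = r / M := by
      rw [← hrp, ← Real.rpow_one_sub' hr0.le (by linarith)]
      congr 1; ring
    rw [this]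
    field_simp
  rw [h5, h6] at h4
  have h7 : 1 / (1 + r) * (|1 - s| ^ p * ((1 + r) ^ (p - 1) * (1 + r))) +
      r / (1 + r) * (|s| ^ p * ((1 + r) ^ (p - 1) * (1 + r) * (M / r))) =
      (1 + r) ^ (p - 1) * (|1 - s| ^ p + M * |s| ^ p) := by
    field_simp
  rw [h7] at h4
  have h8 : 0 < (1 + r) ^ (p - 1) := by positivity
  rw [Real.rpow_neg (by positivity), inv_le_iff_one_le_mul₀ h8, mul_comm]
  exact h4

/-- the inequality between the explicit values, for large `M` -/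
lemma asymp (p : ℝ) (hp : 2 < p) : ∃ M : ℕ, 1 ≤ M ∧
    2 ^ p + 2 * (M : ℝ) * (1 + (2 / (M : ℝ)) ^ (1 / (p - 1))) ^ (-(p - 1)) <
      2 * (M : ℝ) * (1 + (M : ℝ) ^ (-(1 / (p - 1)))) ^ (-(p - 1)) := by
  set a : ℝ := 1 / (p - 1) with ha
  have ha0 : 0 < a := by rw [ha]; apply one_div_pos.2; linarith
  have ha1 : a < 1 := by rw [ha, div_lt_one (by linarith)]; linarith
  set κ : ℝ := 2 ^ a with hκ
  have hκ1 : 1 < κ := Real.one_lt_rpow (by norm_num) ha0
  set g : ℝ → ℝ := fun r => (1 + r) ^ (-(p - 1)) - (1 + κ * r) ^ (-(p - 1)) with hg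
  have hd1 : HasDerivAt (fun r : ℝ => (1 + r) ^ (-(p - 1))) (-(p - 1)) 0 := by
    have h1 : HasDerivAt (fun r : ℝ => 1 + r) 1 0 := by
      simpa using (hasDerivAt_id (0:ℝ)).const_add 1
    have h2 := h1.rpow_const (p := -(p - 1)) (Or.inl (by norm_num))
    simpa using h2
  have hd2 : HasDerivAt (fun r : ℝ => (1 + κ * r) ^ (-(p - 1))) (κ * (-(p - 1))) 0 := by
    have h1 : HasDerivAt (fun r : ℝ => 1 + κ * r) κ 0 := by
      simpa using ((hasDerivAt_id (0:ℝ)).const_mul κ).const_add 1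
    have h2 := h1.rpow_const (p := -(p - 1)) (Or.inl (by norm_num))
    simpa using h2
  have hd : HasDerivAt g ((p - 1) * (κ - 1)) 0 := by
    have := hd1.sub hd2
    have e : -(p - 1) - κ * -(p - 1) = (p - 1) * (κ - 1) := by ring
    rw [e] at this
    exact this
  have hg0 : g 0 = 0 := by simp [hg]
  have hslope : Tendsto (fun r : ℝ => g r / r) (𝓝[≠] 0) (𝓝 ((p - 1) * (κ - 1))) := by
    have := hasDerivAt_iff_tendsto_slope_zero.1 hd
    refine this.congr fun r => ?_
    rw [zero_add, hg0, sub_zero, smul_eq_mul]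
    ring
  have hr : Tendsto (fun M : ℕ => (M : ℝ) ^ (-a)) atTop (𝓝[≠] 0) := by
    rw [tendsto_nhdsWithin_iff]
    refine ⟨(tendsto_rpow_neg_atTop ha0).comp tendsto_natCast_atTop_atTop, ?_⟩
    filter_upwards [eventually_ge_atTop 1] with M hM
    have : (0:ℝ) < M := by exact_mod_cast hM
    have : (0:ℝ) < (M:ℝ) ^ (-a) := by positivity
    exact this.ne'
  have h1 := hslope.comp hr
  have h2 : Tendsto (fun M : ℕ => (M : ℝ) ^ (1 - a)) atTop atTop :=
    (tendsto_rpow_atTop (by linarith)).comp tendsto_natCast_atTop_atTop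
  have hc : 0 < (p - 1) * (κ - 1) := mul_pos (by linarith) (by linarith)
  have h3 := h2.atTop_mul_pos hc h1
  obtain ⟨M, hM1, hM2⟩ := ((eventually_ge_atTop 1).and
    (h3.eventually (eventually_gt_atTop (2 ^ p)))).exists
  refine ⟨M, hM1, ?_⟩
  have hMpos : (0:ℝ) < M := by exact_mod_cast hM1
  have h4 : (M:ℝ) ^ (1 - a) * (g ((M:ℝ) ^ (-a)) / (M:ℝ) ^ (-a)) = M * g ((M:ℝ) ^ (-a)) := by
    have : (M:ℝ) ^ (1 - a) = M * (M:ℝ) ^ (-a) := by
      rw [sub_eq_add_neg, Real.rpow_add hMpos, Real.rpow_one]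
    rw [this]
    have h5 : (0:ℝ) < (M:ℝ) ^ (-a) := by positivity
    field_simp
  simp only [Function.comp_apply] at hM2
  rw [h4] at hM2
  have h6 : κ * (M:ℝ) ^ (-a) = (2 / (M:ℝ)) ^ a := by
    rw [Real.div_rpow (by norm_num) hMpos.le, Real.rpow_neg hMpos.le]
    rfl
  simp only [hg] at hM2
  rw [h6] at hM2
  have h7 : 0 < (2:ℝ) ^ p := by positivity
  nlinarith

end core

section example_

variable {N : ℕ}

/-- the row and the column of a coordinate of `ℝ^{N × N}` -/
def row (i : Fin (N * N)) : Fin N := (finProdFinEquiv.symm i).1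
/-- the column -/
def col (i : Fin (N * N)) : Fin N := (finProdFinEquiv.symm i).2

/-- indicator of a row -/
def rowInd (a : Fin N) : Fin (N * N) → ℝ := fun i => if row i = a then 1 else 0
/-- indicator of a column -/
def colInd (a : Fin N) : Fin (N * N) → ℝ := fun i => if col i = a then 1 else 0

lemma sum_rc (f : Fin N → Fin N → ℝ) :
    ∑ i : Fin (N * N), f (row i) (col i) = ∑ a, ∑ b, f a b := by
  rw [← Equiv.sum_comp finProdFinEquiv, Fintype.sum_prod_type]
  simp [row, col]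

lemma isBody_hull [NeZero N] (f : Fin N → Fin (N * N) → ℝ) :
    IsBody (convexHull ℝ (Set.range f)) :=
  ⟨(Set.range_nonempty f).convexHull, (Set.finite_range f).isCompact_convexHull ℝ,
    convex_convexHull ℝ _⟩

lemma lower [NeZero N] (p : ℝ) (hp : 2 < p) (M : ℝ) (hM : 0 < M) (hMN : M + 1 = N)
    (e : Fin (N * N) → Fin N) (f : Fin N → Fin (N * N) → ℝ)
    (hf : ∀ a i, f a i = if e i = a then 1 else 0) (r : ℝ)
    (hr : IsCircumradius (convexHull ℝ (Set.range f)) (lpBall (N * N) p) r) :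
    N * (1 + M ^ (-(1 / (p - 1)))) ^ (-(p - 1)) ≤ r ^ p := by
  obtain ⟨⟨hr0, t, ht⟩, -⟩ := (rad_iff (by linarith) _ r).1 hr
  set m : ℝ := (1 + M ^ (-(1 / (p - 1)))) ^ (-(p - 1)) with hm
  have h1 : ∑ a, ∑ i, |f a i - t i| ^ p ≤ ∑ _a : Fin N, r ^ p :=
    Finset.sum_le_sum fun a _ => ht (f a) (subset_convexHull ℝ _ (Set.mem_range_self a))
  rw [Finset.sum_const, Finset.card_univ, Fintype.card_fin, nsmul_eq_mul, Finset.sum_comm] at h1
  have h2 : ∀ i, m ≤ ∑ a, |f a i - t i| ^ p := by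
    intro i
    have h3 : ∑ a, |f a i - t i| ^ p = |1 - t i| ^ p + M * |t i| ^ p := by
      rw [← Finset.add_sum_erase _ _ (Finset.mem_univ (e i))]
      congr 1
      · rw [hf, if_pos rfl]
      · have : ∀ a ∈ Finset.univ.erase (e i), |f a i - t i| ^ p = |t i| ^ p := by
          intro a ha
          rw [hf, if_neg (Finset.ne_of_mem_erase ha).symm, zero_sub, abs_neg]
        rw [Finset.sum_congr rfl this, Finset.sum_const, Finset.card_erase_of_mem (Finset.mem_univ _),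
          Finset.card_univ, Fintype.card_fin, nsmul_eq_mul]
        congr 1
        have hN : 1 ≤ N := Nat.one_le_iff_ne_zero.2 (NeZero.ne N)
        push_cast [hN]
        linarith
    rw [h3]
    exact one_dim p hp M hM (t i)
  have h4 : ∑ _i : Fin (N * N), m ≤ ∑ i, ∑ a, |f a i - t i| ^ p := Finset.sum_le_sum fun i _ => h2 i
  rw [Finset.sum_const, Finset.card_univ, Fintype.card_fin, nsmul_eq_mul] at h4
  have h5 := h4.trans h1
  push_cast at h5
  have hN : (0:ℝ) < N := by linarith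
  have h6 : (N:ℝ) * (N * m) ≤ N * r ^ p := by linarith
  exact le_of_mul_le_mul_left h6 hN

/-- sums of powers over a vertex of the sum -/
lemma vertex [NeZero N] (p : ℝ) (M : ℝ) (hMN : M + 1 = N) (a b : Fin N) (s : ℝ) :
    ∑ i, |(rowInd a + colInd b) i - s| ^ p =
      |2 - s| ^ p + 2 * M * |1 - s| ^ p + M ^ 2 * |s| ^ p := by
  have h1 : ∀ i : Fin (N * N), |(rowInd a + colInd b) i - s| ^ p =
      (fun x y : Fin N => |((if x = a then 1 else 0) + (if y = b then 1 else 0) : ℝ) - s| ^ p)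
        (row i) (col i) := fun i => rfl
  rw [Finset.sum_congr rfl fun i _ => h1 i, sum_rc (fun x y : Fin N =>
    |((if x = a then 1 else 0) + (if y = b then 1 else 0) : ℝ) - s| ^ p)]
  have hN : 1 ≤ N := Nat.one_le_iff_ne_zero.2 (NeZero.ne N)
  have hcard : ((Finset.univ.erase b).card : ℝ) = M := by
    rw [Finset.card_erase_of_mem (Finset.mem_univ _), Finset.card_univ, Fintype.card_fin]
    push_cast [hN]; linarith
  have hcard' : ((Finset.univ.erase a).card : ℝ) = M := by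
    rw [Finset.card_erase_of_mem (Finset.mem_univ _), Finset.card_univ, Fintype.card_fin]
    push_cast [hN]; linarith
  have hin : ∀ x : Fin N, ∑ y : Fin N,
      |((if x = a then 1 else 0) + (if y = b then 1 else 0) : ℝ) - s| ^ p =
      |((if x = a then 1 else 0) + 1 : ℝ) - s| ^ p +
        M * |((if x = a then 1 else 0) : ℝ) - s| ^ p := by
    intro x
    rw [← Finset.add_sum_erase _ _ (Finset.mem_univ b), if_pos rfl]
    congr 1
    have : ∀ y ∈ Finset.univ.erase b,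
        |((if x = a then 1 else 0) + (if y = b then 1 else 0) : ℝ) - s| ^ p =
        |((if x = a then 1 else 0) : ℝ) - s| ^ p := by
      intro y hy
      rw [if_neg (Finset.ne_of_mem_erase hy), add_zero]
    rw [Finset.sum_congr rfl this, Finset.sum_const, nsmul_eq_mul, hcard]
  rw [Finset.sum_congr rfl fun x _ => hin x, ← Finset.add_sum_erase _ _ (Finset.mem_univ a)]
  have : ∀ x ∈ Finset.univ.erase a, |((if x = a then 1 else 0) + 1 : ℝ) - s| ^ p +
        M * |((if x = a then 1 else 0) : ℝ) - s| ^ p = |1 - s| ^ p + M * |s| ^ p := by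
    intro x hx
    rw [if_neg (Finset.ne_of_mem_erase hx), zero_add, zero_sub, abs_neg]
  rw [Finset.sum_congr rfl this, Finset.sum_const, nsmul_eq_mul, hcard', if_pos rfl]
  norm_num
  ring

lemma upper [NeZero N] (p : ℝ) (hp : 2 < p) (M : ℝ) (hMN : M + 1 = N) (s : ℝ) (r : ℝ)
    (hr : IsCircumradius (convexHull ℝ (Set.range (rowInd (N := N))) +
      convexHull ℝ (Set.range (colInd (N := N)))) (lpBall (N * N) p) r) :
    r ^ p ≤ |2 - s| ^ p + 2 * M * |1 - s| ^ p + M ^ 2 * |s| ^ p := by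
  set U : ℝ := |2 - s| ^ p + 2 * M * |1 - s| ^ p + M ^ 2 * |s| ^ p with hU
  have hp0 : 0 < p := by linarith
  have hr' := (rad_iff hp0 _ r).1 hr
  have hN : (1:ℝ) ≤ N := by exact_mod_cast Nat.one_le_iff_ne_zero.2 (NeZero.ne N)
  have hM : 0 ≤ M := by linarith
  have hU0 : 0 ≤ U := by positivity
  have hUp : (U ^ (1 / p)) ^ p = U := by
    rw [← Real.rpow_mul hU0, one_div, inv_mul_cancel₀ hp0.ne', Real.rpow_one]
  have hmem : U ^ (1 / p) ∈ {l : ℝ | 0 ≤ l ∧ ∃ t : Fin (N * N) → ℝ,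
      ∀ x ∈ convexHull ℝ (Set.range (rowInd (N := N))) + convexHull ℝ (Set.range (colInd (N := N))),
        ∑ i, |x i - t i| ^ p ≤ l ^ p} := by
    refine ⟨by positivity, fun _ => s, ?_⟩
    rw [hUp, ← convexHull_add]
    have hconv : Convex ℝ {x : Fin (N * N) → ℝ | ∑ i, |x i - s| ^ p ≤ U} := by
      intro x hx y hy a b ha hb hab
      have h1 : ∀ i, |(a • x + b • y) i - s| ^ p ≤ a * |x i - s| ^ p + b * |y i - s| ^ p :=
        fun i => abs_pow_convex p (by linarith) s (x i) (y i) a b ha hb hab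
      calc ∑ i, |(a • x + b • y) i - s| ^ p
          ≤ ∑ i, (a * |x i - s| ^ p + b * |y i - s| ^ p) := Finset.sum_le_sum fun i _ => h1 i
        _ = a * ∑ i, |x i - s| ^ p + b * ∑ i, |y i - s| ^ p := by
            rw [Finset.sum_add_distrib, Finset.mul_sum, Finset.mul_sum]
        _ ≤ a * U + b * U :=
            add_le_add (mul_le_mul_of_nonneg_left hx ha) (mul_le_mul_of_nonneg_left hy hb)
        _ = U := by rw [← add_mul, hab, one_mul]
    intro x hx
    have hsub : Set.range (rowInd (N := N)) + Set.range (colInd (N := N)) ⊆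
        {x : Fin (N * N) → ℝ | ∑ i, |x i - s| ^ p ≤ U} := by
      rintro _ ⟨_, ⟨a, rfl⟩, _, ⟨b, rfl⟩, rfl⟩
      exact (vertex p M hMN a b s).le
    exact convexHull_min hsub hconv hx
  have h1 := hr'.2 hmem
  calc r ^ p ≤ (U ^ (1 / p)) ^ p := Real.rpow_le_rpow hr'.1.1 h1 hp0.le
    _ = U := hUp

end example_

/-- **For every `p ∈ (2, ∞)`** there are an `n` and convex bodies `K`, `L` in `ℝ^n` with
`R(K + L, B_p) < (R(K, B_p)^p + R(L, B_p)^p)^(1/p)`. -/
theorem result (p : ℝ) (hp : 2 < p) : ∃ (n : ℕ) (K L : Set (Fin n → ℝ)) (r rK rL : ℝ),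
    IsBody K ∧ IsBody L ∧ IsBody (K + L) ∧
      IsCircumradius K (lpBall n p) rK ∧ IsCircumradius L (lpBall n p) rL ∧
      IsCircumradius (K + L) (lpBall n p) r ∧ r < (rK ^ p + rL ^ p) ^ (1 / p) := by
  obtain ⟨M, hM1, hM2⟩ := asymp p hp
  have hp0 : 0 < p := by linarith
  have hMpos : (0:ℝ) < M := by exact_mod_cast hM1
  set N : ℕ := M + 1 with hN
  have hMN : (M:ℝ) + 1 = N := by rw [hN]; push_cast; ring
  have : NeZero N := ⟨by omega⟩
  have bK : IsBody (convexHull ℝ (Set.range (rowInd (N := N)))) := isBody_hull _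
  have bL : IsBody (convexHull ℝ (Set.range (colInd (N := N)))) := isBody_hull _
  have bS : IsBody (convexHull ℝ (Set.range (rowInd (N := N))) +
      convexHull ℝ (Set.range (colInd (N := N)))) :=
    ⟨bK.1.add bL.1, bK.2.1.add bL.2.1, bK.2.2.add bL.2.2⟩
  obtain ⟨rK, hrK⟩ := exists_rad hp0 _ bK
  obtain ⟨rL, hrL⟩ := exists_rad hp0 _ bL
  obtain ⟨r, hr⟩ := exists_rad hp0 _ bS
  refine ⟨N * N, _, _, r, rK, rL, bK, bL, bS, hrK, hrL, hr, ?_⟩
  have l1 := lower p hp M hMpos hMN row rowInd (fun a i => rfl) rK hrK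
  have l2 := lower p hp M hMpos hMN col colInd (fun a i => rfl) rL hrL
  set ρ : ℝ := (2 / (M:ℝ)) ^ (1 / (p - 1)) with hρ
  have hρ0 : 0 < ρ := by positivity
  have hρp : ρ ^ (p - 1) = 2 / M := by
    rw [hρ, ← Real.rpow_mul (by positivity)]
    have : 1 / (p - 1) * (p - 1) = 1 := by
      have : p - 1 ≠ 0 := by linarith
      field_simp
    rw [this, Real.rpow_one]
  have hρp' : ρ ^ p = 2 / M * ρ := by
    rw [← hρp, ← Real.rpow_add_one hρ0.ne']
    congr 1; ring
  have u := upper p hp M hMN (ρ / (1 + ρ)) r hr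
  have e1 : |1 - ρ / (1 + ρ)| ^ p = (1 + ρ) ^ (-p) := by
    have : 1 - ρ / (1 + ρ) = (1 + ρ)⁻¹ := by field_simp; ring
    rw [this, abs_of_pos (by positivity), Real.inv_rpow (by positivity),
      Real.rpow_neg (by positivity)]
  have e2 : |ρ / (1 + ρ)| ^ p = 2 / M * ρ * (1 + ρ) ^ (-p) := by
    rw [abs_of_pos (by positivity), Real.div_rpow hρ0.le (by positivity), hρp',
      Real.rpow_neg (by positivity)]
    field_simp
  have e3 : |2 - ρ / (1 + ρ)| ^ p ≤ 2 ^ p := by
    refine Real.rpow_le_rpow (abs_nonneg _) ?_ hp0.le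
    have h1 : 0 < ρ / (1 + ρ) := by positivity
    have h2 : ρ / (1 + ρ) ≤ 1 := by rw [div_le_one (by positivity)]; linarith
    rw [abs_of_pos (by linarith)]
    linarith
  have e4 : (1 + ρ) ^ (-(p - 1)) = (1 + ρ) ^ (-p) * (1 + ρ) := by
    rw [← Real.rpow_add_one (by positivity)]
    congr 1; ring
  have u2 : r ^ p ≤ 2 ^ p + 2 * (M:ℝ) * (1 + ρ) ^ (-(p - 1)) := by
    refine u.trans ?_
    rw [e1, e2, e4]
    have : 2 * (M:ℝ) * (1 + ρ) ^ (-p) + (M:ℝ) ^ 2 * (2 / M * ρ * (1 + ρ) ^ (-p)) =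
        2 * (M:ℝ) * ((1 + ρ) ^ (-p) * (1 + ρ)) := by
      field_simp
    linarith
  have hm : 0 < (1 + (M:ℝ) ^ (-(1 / (p - 1)))) ^ (-(p - 1)) := by positivity
  have hlt : r ^ p < rK ^ p + rL ^ p := by
    have h1 : r ^ p < 2 * (M:ℝ) * (1 + (M:ℝ) ^ (-(1 / (p - 1)))) ^ (-(p - 1)) := u2.trans_lt hM2
    rw [← hMN] at l1 l2
    nlinarith
  have hr0 : 0 ≤ r := hr.1.1
  calc r = (r ^ p) ^ (1 / p) := by
        rw [← Real.rpow_mul hr0, mul_one_div, div_self hp0.ne', Real.rpow_one]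
    _ < (rK ^ p + rL ^ p) ^ (1 / p) :=
        Real.rpow_lt_rpow (by positivity) hlt (by positivity)

end Pool.Agent.Results.MP_a85856_gt.MinkowskiSumFails
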